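import Mathlib
import Pool.Agent.Lib.MP_965dfe_ag.Main
import Pool.Agent.Lib.MP_965dfe_ag.IsoCheck

/-!
# GIT stability of quintic surfaces, quartic threefolds and quintic threefolds

The definitions used in the statement are in `Defs.lean`, the lists of flag types in `Types.lean`
and the lists of weights in `Weights.lean`, all in `Pool/Agent/Lib/MP_965dfe_ag/`.
-/

open MvPolynomial Pool.Agent.Lib.MP_965dfe_ag

namespace Pool.Agent.Results.MP_965dfe_ag.Classification

theorem classified_of {n d : ℕ} (hn : 1 < n) {f : MvPolynomial (Fin n) ℂ}
    (hf : f.IsHomogeneous d) {TN TU IN IU : List FlagType}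
    {WN WU WNI WUI : List (Fin n → ℤ)} {SN SU : List (List (List ℤ))} {tN tU : Check.Tree}
    (hN : Check.checkAll n d false (WN.map List.ofFn) SN tN = true) (gN : goodWeights WN)
    (hU : Check.checkAll n d true (WU.map List.ofFn) SU tU = true) (gU : goodWeights WU)
    (hTN : Check.checkTypes false (Check.monos n d) (WN.map List.ofFn) TN = true)
    (hTU : Check.checkTypes true (Check.monos n d) (WU.map List.ofFn) TU = true)
    (hIN : Check.checkTypes false (Check.monos n d) (WNI.map List.ofFn) IN = true)
    (hIU : Check.checkTypes true (Check.monos n d) (WUI.map List.ofFn) IU = true)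
    (sN : ∀ w ∈ WNI, w ∈ WN) (sU : ∀ w ∈ WUI, w ∈ WU)
    (rN : (singularLocus f).Finite → InFamily false WN f → InFamily false WNI f)
    (rU : (singularLocus f).Finite → InFamily true WU f → InFamily true WUI f) :
    Classified f TN TU WN WU IN IU := by
  have e1 : ∀ W : List (Fin n → ℤ), NonnegFor W f ↔ InFamily false W f := by
    intro W
    simp only [NonnegFor, InFamily, Bool.false_eq_true, if_false]
  have e2 : ∀ W : List (Fin n → ℤ), PosFor W f ↔ InFamily true W f := by
    intro W
    simp only [PosFor, InFamily, if_true]
  have a1 : (∃ t ∈ TN, HasFlagType f t) ↔ InFamily false WN f := flag_iff_weight WN TN hTN hf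
  have a2 : (∃ t ∈ TU, HasFlagType f t) ↔ InFamily true WU f := flag_iff_weight WU TU hTU hf
  have a3 : (∃ t ∈ IN, HasFlagType f t) ↔ InFamily false WNI f := flag_iff_weight WNI IN hIN hf
  have a4 : (∃ t ∈ IU, HasFlagType f t) ↔ InFamily true WUI f := flag_iff_weight WUI IU hIU hf
  have b1 : IsStable f ↔ ¬ InFamily false WN f := by
    rw [← e1]
    exact stable_iff_of_check hn WN SN tN hN gN hf
  have b2 : IsSemistable f ↔ ¬ InFamily true WU f := by
    rw [← e2]
    exact semistable_iff_of_check hn WU SU tU hU gU hf
  refine ⟨?_, ?_, ?_, ?_, ?_, ?_⟩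
  · rw [a1, b1]
  · rw [a2, b2]
  · rw [a1, e1]
  · rw [a2, e2]
  · intro hfin
    rw [a3, b1]
    exact not_congr ⟨rN hfin, fun h => h.mono sN⟩
  · intro hfin
    rw [a4, b2]
    exact not_congr ⟨rU hfin, fun h => h.mono sU⟩

theorem result :
    -- (a) quintic surfaces
    (∀ f : MvPolynomial (Fin 4) ℂ, f.IsHomogeneous 5 →
      Classified f nonstable45Types unstable45Types nonstable45 unstable45
        nonstable45IsoTypes unstable45IsoTypes) ∧
    -- (b) quartic threefolds
    (∀ f : MvPolynomial (Fin 5) ℂ, f.IsHomogeneous 4 →
      Classified f nonstable54Types unstable54Types nonstable54 unstable54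
        nonstable54IsoTypes unstable54IsoTypes) ∧
    -- (c) quintic threefolds
    (∀ f : MvPolynomial (Fin 5) ℂ, f.IsHomogeneous 5 →
      Classified f nonstable55Types unstable55Types nonstable55 unstable55
        nonstable55IsoTypes unstable55IsoTypes) := by
  refine ⟨fun f hf => ?_, fun f hf => ?_, fun f hf => ?_⟩
  · exact classified_of (by norm_num) hf nonstable45_check good_nonstable45 unstable45_check
      good_unstable45 types_nonstable45 types_unstable45 typesIso_nonstable45
      typesIso_unstable45 sub_nonstable45 sub_unstable45
      (fun hfin => iso_reduction4 (by norm_num) _ _ iso_nonstable45 hf hfin)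
      (fun hfin => iso_reduction4 (by norm_num) _ _ iso_unstable45 hf hfin)
  · exact classified_of (by norm_num) hf nonstable54_check good_nonstable54 unstable54_check
      good_unstable54 types_nonstable54 types_unstable54 typesIso_nonstable54
      typesIso_unstable54 sub_nonstable54 sub_unstable54
      (fun hfin => iso_reduction5 (by norm_num) _ _ iso_nonstable54 hf hfin)
      (fun hfin => iso_reduction5 (by norm_num) _ _ iso_unstable54 hf hfin)
  · exact classified_of (by norm_num) hf nonstable55_check good_nonstable55 unstable55_check
      good_unstable55 types_nonstable55 types_unstable55 typesIso_nonstable55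
      typesIso_unstable55 sub_nonstable55 sub_unstable55
      (fun hfin => iso_reduction5 (by norm_num) _ _ iso_nonstable55 hf hfin)
      (fun hfin => iso_reduction5 (by norm_num) _ _ iso_unstable55 hf hfin)

end Pool.Agent.Results.MP_965dfe_ag.Classification
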